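import Pool.Agent.MP_67fb03_al.Defs

set_option autoImplicit false

/-!
The restricted wreath product `Z_p wr U`, `U` a direct sum of copies of `ℚ/ℤ`: each law of it is a
law of every extension of an abelian group of exponent `p` by an abelian group.
-/

namespace Pool.Agent.MP_67fb03_al

/-- Restricted wreath product of `ZMod p` by an abelian group `U`. -/
@[ext] structure Lamp (p : ℕ) (U : Type*) [AddCommGroup U] where
  fn : U →₀ ZMod p
  pt : U

namespace Lamp

variable {p : ℕ} {U : Type*} [AddCommGroup U]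

/-- translation -/
noncomputable def shift (v : U) (ψ : U →₀ ZMod p) : U →₀ ZMod p :=
  ψ.equivMapDomain (Equiv.addRight v).symm

@[simp] theorem shift_apply (v : U) (ψ : U →₀ ZMod p) (u : U) : shift v ψ u = ψ (u + v) := by
  simp [shift, Finsupp.equivMapDomain_apply]

noncomputable instance : Mul (Lamp p U) := ⟨fun a b => ⟨a.fn + shift a.pt b.fn, a.pt + b.pt⟩⟩
noncomputable instance : One (Lamp p U) := ⟨⟨0, 0⟩⟩
noncomputable instance : Inv (Lamp p U) := ⟨fun a => ⟨-(shift (-a.pt) a.fn), -a.pt⟩⟩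

@[simp] theorem mul_fn (a b : Lamp p U) (u : U) : (a * b).fn u = a.fn u + b.fn (u + a.pt) := by
  change (a.fn + shift a.pt b.fn) u = _
  simp

@[simp] theorem mul_pt (a b : Lamp p U) : (a * b).pt = a.pt + b.pt := rfl
@[simp] theorem one_fn : (1 : Lamp p U).fn = 0 := rfl
@[simp] theorem one_pt : (1 : Lamp p U).pt = 0 := rfl
@[simp] theorem inv_fn (a : Lamp p U) (u : U) : (a⁻¹).fn u = -a.fn (u - a.pt) := by
  change (-(shift (-a.pt) a.fn)) u = _
  simp [sub_eq_add_neg]
@[simp] theorem inv_pt (a : Lamp p U) : (a⁻¹).pt = -a.pt := rfl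

theorem ext' {a b : Lamp p U} (h1 : ∀ u, a.fn u = b.fn u) (h2 : a.pt = b.pt) : a = b :=
  Lamp.ext (Finsupp.ext h1) h2

noncomputable instance : Group (Lamp p U) where
  mul_assoc a b c := ext' (fun u => by simp [add_assoc]) (by simp [add_assoc])
  one_mul a := ext' (fun u => by simp) (by simp)
  mul_one a := ext' (fun u => by simp) (by simp)
  inv_mul_cancel a := ext' (fun u => by simp [sub_eq_add_neg]) (by simp)

instance [NeZero p] [Countable U] : Countable (Lamp p U) := by
  have : Function.Injective (fun a : Lamp p U => (a.fn, a.pt)) := by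
    intro a b h
    simp only [Prod.mk.injEq] at h
    exact Lamp.ext h.1 h.2
  have : Countable ((U →₀ ZMod p) × U) := inferInstance
  exact Function.Injective.countable ‹Function.Injective _›

theorem pow_pt (a : Lamp p U) (k : ℕ) : (a ^ k).pt = k • a.pt := by
  induction k with
  | zero => simp
  | succ k ih => rw [pow_succ, mul_pt, ih, succ_nsmul]

theorem pow_of_pt_zero (a : Lamp p U) (h : a.pt = 0) (k : ℕ) (u : U) :
    (a ^ k).fn u = k * a.fn u := by
  induction k with
  | zero => simp
  | succ k ih => rw [pow_succ, mul_fn, ih, pow_pt, h]; simp; ring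

theorem exists_pow_eq_one (hp : 0 < p) (hU : ∀ u : U, ∃ k : ℕ, 0 < k ∧ k • u = 0) (a : Lamp p U) :
    ∃ k : ℕ, 0 < k ∧ a ^ k = 1 := by
  obtain ⟨k, hk, h⟩ := hU a.pt
  refine ⟨k * p, Nat.mul_pos hk hp, ?_⟩
  rw [pow_mul]
  have h1 : (a ^ k).pt = 0 := by rw [pow_pt, h]
  refine ext' (fun u => ?_) ?_
  · rw [pow_of_pt_zero _ h1]; simp
  · rw [pow_pt, h1]; simp

/-- Two elements of the base group commute. -/
theorem comm_of_pt_zero (a b : Lamp p U) (ha : a.pt = 0) (hb : b.pt = 0) : a * b = b * a :=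
  ext' (fun u => by simp [ha, hb, add_comm]) (by simp [ha, hb])

theorem pt_commutator (a b : Lamp p U) : (a * b * a⁻¹ * b⁻¹).pt = 0 := by
  simp

end Lamp

section words

variable {M Z : Type*} [AddCommGroup M] [AddCommGroup Z]

/-- Fox type evaluation of a word along its path. -/
def evD (g : ℕ → Z → M) (r : ℕ → Z) : List (ℕ × Bool) → Z → M
  | [], _ => 0
  | (i, true) :: L, y => g i y + evD g r L (y + r i)
  | (i, false) :: L, y => -g i (y - r i) + evD g r L (y - r i)

/-- end point of the path -/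
def evE (r : ℕ → Z) : List (ℕ × Bool) → Z → Z
  | [], y => y
  | (i, true) :: L, y => evE r L (y + r i)
  | (i, false) :: L, y => evE r L (y - r i)

/-- positions visited by the path -/
def evP [DecidableEq Z] (r : ℕ → Z) : List (ℕ × Bool) → Z → Finset Z
  | [], y => {y}
  | (i, true) :: L, y => insert y (evP r L (y + r i))
  | (i, false) :: L, y => insert y (evP r L (y - r i))

theorem evP_mem_self [DecidableEq Z] (r : ℕ → Z) (L : List (ℕ × Bool)) (y : Z) : y ∈ evP r L y := by
  cases L with
  | nil => simp [evP]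
  | cons x L => obtain ⟨i, b⟩ := x; cases b <;> simp [evP]

theorem evP_mem_end [DecidableEq Z] (r : ℕ → Z) (L : List (ℕ × Bool)) (y : Z) :
    evE r L y ∈ evP r L y := by
  induction L generalizing y with
  | nil => simp [evP, evE]
  | cons x L ih =>
    obtain ⟨i, b⟩ := x
    cases b
    · exact Finset.mem_insert_of_mem (ih _)
    · exact Finset.mem_insert_of_mem (ih _)

theorem evD_congr [DecidableEq Z] (g g' : ℕ → Z → M) (r : ℕ → Z) (L : List (ℕ × Bool)) (y : Z)
    (h : ∀ i, ∀ z ∈ evP r L y, g i z = g' i z) : evD g r L y = evD g' r L y := by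
  induction L generalizing y with
  | nil => rfl
  | cons x L ih =>
    obtain ⟨i, b⟩ := x
    cases b
    · simp only [evD]
      rw [ih _ (fun j z hz => h j z (Finset.mem_insert_of_mem hz)),
        h i (y - r i) (Finset.mem_insert_of_mem (evP_mem_self _ _ _))]
    · simp only [evD]
      rw [ih _ (fun j z hz => h j z (Finset.mem_insert_of_mem hz)),
        h i y (Finset.mem_insert_self _ _)]

theorem evD_map {M' : Type*} [AddCommGroup M'] (l : M →+ M') (g : ℕ → Z → M) (r : ℕ → Z)
    (L : List (ℕ × Bool)) (y : Z) : evD (fun i z => l (g i z)) r L y = l (evD g r L y) := by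
  induction L generalizing y with
  | nil => simp [evD]
  | cons x L ih =>
    obtain ⟨i, b⟩ := x
    cases b <;> simp [evD, ih]

theorem evD_comp {Z' : Type*} [AddCommGroup Z'] (ρ : Z →+ Z') (g : ℕ → Z' → M) (r : ℕ → Z)
    (L : List (ℕ × Bool)) (y : Z) :
    evD g (fun i => ρ (r i)) L (ρ y) = evD (fun i z => g i (ρ z)) r L y := by
  induction L generalizing y with
  | nil => simp [evD]
  | cons x L ih =>
    obtain ⟨i, b⟩ := x
    cases b
    · simp only [evD]; rw [← map_sub, ih]
    · simp only [evD]; rw [← map_add, ih]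

theorem evE_comp {Z' : Type*} [AddCommGroup Z'] (ρ : Z →+ Z') (r : ℕ → Z)
    (L : List (ℕ × Bool)) (y : Z) : evE (fun i => ρ (r i)) L (ρ y) = ρ (evE r L y) := by
  induction L generalizing y with
  | nil => rfl
  | cons x L ih =>
    obtain ⟨i, b⟩ := x
    cases b
    · simp only [evE]; rw [← map_sub, ih]
    · simp only [evE]; rw [← map_add, ih]

/-- value of a word at a tuple -/
def wval {G : Type*} [Group G] (a : ℕ → G) (L : List (ℕ × Bool)) : G :=
  (L.map fun x => cond x.2 (a x.1) (a x.1)⁻¹).prod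

theorem lamp_wval {p : ℕ} {U : Type*} [AddCommGroup U] (φ : ℕ → U →₀ ZMod p) (r : ℕ → U)
    (L : List (ℕ × Bool)) (u : U) :
    (wval (fun i => (⟨φ i, r i⟩ : Lamp p U)) L).fn u = evD (fun i z => φ i z) r L u ∧
      u + (wval (fun i => (⟨φ i, r i⟩ : Lamp p U)) L).pt = evE r L u := by
  induction L generalizing u with
  | nil => simp [wval, evD, evE]
  | cons x L ih =>
    obtain ⟨i, b⟩ := x
    cases b
    · obtain ⟨h1, h2⟩ := ih (u - r i)
      have e : wval (fun i => (⟨φ i, r i⟩ : Lamp p U)) ((i, false) :: L) =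
          (⟨φ i, r i⟩ : Lamp p U)⁻¹ * wval (fun i => (⟨φ i, r i⟩ : Lamp p U)) L := by
        simp [wval]
      rw [e]
      constructor
      · rw [Lamp.mul_fn, Lamp.inv_fn, Lamp.inv_pt, ← sub_eq_add_neg, h1]
        rfl
      · rw [Lamp.mul_pt, Lamp.inv_pt]
        simp only [evE]
        rw [← h2]; abel
    · obtain ⟨h1, h2⟩ := ih (u + r i)
      have e : wval (fun i => (⟨φ i, r i⟩ : Lamp p U)) ((i, true) :: L) =
          (⟨φ i, r i⟩ : Lamp p U) * wval (fun i => (⟨φ i, r i⟩ : Lamp p U)) L := by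
        simp [wval]
      rw [e]
      constructor
      · rw [Lamp.mul_fn, h1]
        rfl
      · rw [Lamp.mul_pt]
        simp only [evE]
        rw [← h2]; abel

end words

section metab

variable {A V Z : Type*} [Group A] [AddCommGroup V] [AddCommGroup Z]

/-- the telescoping identity -/
theorem metab_wval (ι : Multiplicative V →* A) (n : ℕ → Z → V) (s : Z → A) (a : ℕ → A) (r : ℕ → Z)
    (h : ∀ i z, s z * a i = ι (Multiplicative.ofAdd (n i z)) * s (z + r i))
    (L : List (ℕ × Bool)) (y : Z) :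
    s y * wval a L = ι (Multiplicative.ofAdd (evD n r L y)) * s (evE r L y) := by
  induction L generalizing y with
  | nil => simp [wval, evD, evE]
  | cons x L ih =>
    obtain ⟨i, b⟩ := x
    cases b
    · have e : wval a ((i, false) :: L) = (a i)⁻¹ * wval a L := by simp [wval]
      have h1 := h i (y - r i)
      rw [sub_add_cancel] at h1
      have h2 : s y * (a i)⁻¹ = (ι (Multiplicative.ofAdd (n i (y - r i))))⁻¹ * s (y - r i) := by
        rw [mul_inv_eq_iff_eq_mul, mul_assoc, h1]; group
      rw [e, ← mul_assoc, h2, mul_assoc, ih]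
      simp only [evD, evE, ofAdd_add, ofAdd_neg, map_mul, map_inv, mul_assoc]
    · have e : wval a ((i, true) :: L) = a i * wval a L := by simp [wval]
      rw [e, ← mul_assoc, h, mul_assoc, ih]
      simp only [evD, evE, ofAdd_add, map_mul, mul_assoc]

end metab

/-- The top group: a direct sum of copies of `ℚ/ℤ`. -/
abbrev UU : Type := ℕ →₀ AddCircle (1 : ℚ)

theorem exists_rho (E : Finset (ℕ →₀ ℤ)) : ∃ ρ : (ℕ →₀ ℤ) →+ UU, ∀ z ∈ E, ∀ z' ∈ E,
    ρ z = ρ z' → z = z' := by
  classical
  -- a bound for the coordinates of the differences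
  obtain ⟨k, hk⟩ : ∃ k : ℕ, ∀ z ∈ E, ∀ z' ∈ E, ∀ i, |(z - z') i| < k := by
    refine ⟨(E ×ˢ E).sup (fun q => (q.1 - q.2).support.sup fun i => ((q.1 - q.2) i).natAbs) + 1, ?_⟩
    intro z hz z' hz' i
    by_cases hi : i ∈ (z - z').support
    · have h1 : ((z - z') i).natAbs ≤ (z - z').support.sup fun i => ((z - z') i).natAbs :=
        Finset.le_sup (f := fun i => ((z - z') i).natAbs) hi
      have h2 := Finset.le_sup (f := fun q : (ℕ →₀ ℤ) × (ℕ →₀ ℤ) =>
        (q.1 - q.2).support.sup fun i => ((q.1 - q.2) i).natAbs)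
        (Finset.mem_product.2 ⟨hz, hz'⟩ : (z, z') ∈ E ×ˢ E)
      have h3 := Nat.lt_succ_of_le (h1.trans h2)
      rw [Int.abs_eq_natAbs]
      exact_mod_cast h3
    · rw [Finsupp.notMem_support_iff.1 hi]
      simp
  let c : ℤ →+ AddCircle (1 : ℚ) :=
    { toFun := fun n => ((n / k : ℚ) : AddCircle (1 : ℚ))
      map_zero' := by simp
      map_add' := fun a b => by
        rw [← AddCircle.coe_add]; congr 1; push_cast; ring }
  refine ⟨Finsupp.mapRange.addMonoidHom c, ?_⟩
  intro z hz z' hz' h
  have h1 : Finsupp.mapRange.addMonoidHom c (z - z') = 0 := by rw [map_sub, h, sub_self]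
  rw [← sub_eq_zero]
  ext i
  have h2 : c ((z - z') i) = 0 := by
    have := DFunLike.congr_fun h1 i
    simpa using this
  have h3 : ((((z - z') i : ℤ) / k : ℚ) : AddCircle (1 : ℚ)) = 0 := h2
  rw [AddCircle.coe_eq_zero_iff] at h3
  obtain ⟨m, hm⟩ := h3
  have hlt := hk z hz z' hz' i
  have hk0 : (0 : ℤ) < k := lt_of_le_of_lt (abs_nonneg _) hlt
  have hkq : (k : ℚ) ≠ 0 := by
    have : (0 : ℚ) < k := by exact_mod_cast hk0
    exact this.ne'
  have hm' : (m : ℚ) * k = ((z - z') i : ℤ) := by
    rw [zsmul_eq_mul, mul_one] at hm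
    rw [hm]; field_simp
  have hm'' : m * k = (z - z') i := by exact_mod_cast hm'
  have hm0 : m = 0 := by
    by_contra hne
    have : 1 ≤ |m| := Int.one_le_abs hne
    rw [← hm'', abs_mul, abs_of_pos hk0] at hlt
    nlinarith
  rw [← hm'', hm0, zero_mul]; rfl

theorem torsion_UU (u : UU) : ∃ k : ℕ, 0 < k ∧ k • u = 0 := by
  classical
  have h1 : ∀ x : AddCircle (1 : ℚ), ∃ k : ℕ, 0 < k ∧ k • x = 0 := by
    intro x
    obtain ⟨q, rfl⟩ := QuotientAddGroup.mk_surjective x
    refine ⟨q.den, q.den_pos, ?_⟩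
    change ((q.den • q : ℚ) : AddCircle (1 : ℚ)) = 0
    rw [AddCircle.coe_eq_zero_iff]
    refine ⟨q.num, ?_⟩
    rw [zsmul_eq_mul, mul_one, nsmul_eq_mul, Rat.den_mul_eq_num]
  induction u using Finsupp.induction with
  | zero => exact ⟨1, one_pos, by simp⟩
  | single_add a b f _ _ ih =>
    obtain ⟨k, hk, hk'⟩ := ih
    obtain ⟨l, hl, hl'⟩ := h1 b
    refine ⟨k * l, Nat.mul_pos hk hl, ?_⟩
    have e1 : (k * l) • Finsupp.single a b = 0 := by
      rw [mul_smul, Finsupp.smul_single, hl', Finsupp.single_zero, smul_zero]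
    have e2 : (k * l) • f = 0 := by
      rw [mul_comm, mul_smul, hk', smul_zero]
    rw [smul_add, e1, e2, add_zero]

theorem eq_zero_of_dual (p : ℕ) [Fact p.Prime] {V : Type*} [AddCommGroup V]
    (hV : ∀ x : V, p • x = 0) (x : V) (h : ∀ l : V →+ ZMod p, l x = 0) : x = 0 := by
  let _ : Module (ZMod p) V := AddCommGroup.zmodModule (n := p) hV
  have hproj : Module.Projective (ZMod p) V := Module.Projective.of_free
  exact (Module.forall_dual_apply_eq_zero_iff (ZMod p) x).1 fun l => h l.toAddMonoidHom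

/-- Each law of `Z_p wr UU` is a law of each extension of an abelian group of exponent `p` by an
abelian group. -/
theorem law_transfer (p : ℕ) [Fact p.Prime] (w : FreeGroup ℕ) (hw : IsLaw w (Lamp p UU))
    (A : Type*) [Group A] (hA : InApA p A) : IsLaw w A := by
  classical
  obtain ⟨N, hN, hexp, hcomm, hquot⟩ := hA
  intro a
  obtain ⟨L, rfl⟩ : ∃ L, FreeGroup.mk L = w := Quot.exists_rep w
  have hw' : ∀ h : ℕ → Lamp p UU, wval h L = 1 := fun h => by
    have := hw h; rwa [FreeGroup.lift_mk] at this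
  rw [FreeGroup.lift_mk]
  change wval a L = 1
  -- structure on `N`
  let iN : CommGroup N := { (inferInstance : Group N) with
    mul_comm := fun x y => Subtype.ext (hcomm x x.2 y y.2) }
  let V := Additive N
  have hV : ∀ x : V, p • x = 0 := fun x => by
    have : (Additive.toMul x) ^ p = 1 := Subtype.ext (hexp _ (Additive.toMul x).2)
    exact this
  let ι : Multiplicative V →* A := N.subtype.comp (MulEquiv.refl N).toMonoidHom
  -- the quotient
  let iQ : CommGroup (A ⧸ N) := { (inferInstance : Group (A ⧸ N)) with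
    mul_comm := by
      intro x y
      obtain ⟨x, rfl⟩ := QuotientGroup.mk_surjective x
      obtain ⟨y, rfl⟩ := QuotientGroup.mk_surjective y
      rw [← QuotientGroup.mk_mul, ← QuotientGroup.mk_mul, QuotientGroup.eq_iff_div_mem]
      have := hquot x y
      rw [div_eq_mul_inv, mul_inv_rev]
      simpa [mul_assoc] using this }
  let r : ℕ → (ℕ →₀ ℤ) := fun i => Finsupp.single i 1
  let q : (ℕ →₀ ℤ) →+ Additive (A ⧸ N) :=
    Finsupp.liftAddHom fun i => (zmultiplesHom (Additive (A ⧸ N)))
      (Additive.ofMul (QuotientGroup.mk (a i) : A ⧸ N))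
  have hq : ∀ i, q (r i) = Additive.ofMul (QuotientGroup.mk (a i) : A ⧸ N) := by
    intro i
    simp [q, r]
  let s : (ℕ →₀ ℤ) → A := fun z => Quotient.out (Additive.toMul (q z))
  have hs : ∀ z, (QuotientGroup.mk (s z) : A ⧸ N) = Additive.toMul (q z) := fun z =>
    Quotient.out_eq _
  have hmem : ∀ i z, s z * a i * (s (z + r i))⁻¹ ∈ N := by
    intro i z
    rw [← QuotientGroup.eq_one_iff, QuotientGroup.mk_mul, QuotientGroup.mk_mul,
      QuotientGroup.mk_inv, hs, hs, map_add, hq]
    change Additive.toMul (q z) * (QuotientGroup.mk (a i) : A ⧸ N) *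
      (Additive.toMul (q z) * (QuotientGroup.mk (a i) : A ⧸ N))⁻¹ = 1
    group
  let n : ℕ → (ℕ →₀ ℤ) → V := fun i z => Additive.ofMul ⟨_, hmem i z⟩
  have hn : ∀ i z, s z * a i = ι (Multiplicative.ofAdd (n i z)) * s (z + r i) := by
    intro i z
    change s z * a i = (s z * a i * (s (z + r i))⁻¹) * s (z + r i)
    group
  have key := metab_wval ι n s a r hn L 0
  -- the positions
  obtain ⟨ρ, hρ⟩ := exists_rho (evP r L 0)
  -- end point
  have hend : evE r L 0 = 0 := by
    have h1 := (lamp_wval (p := p) (fun _ => 0) (fun i => ρ (r i)) L (ρ 0)).2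
    rw [hw', evE_comp, Lamp.one_pt, add_zero] at h1
    exact (hρ _ (evP_mem_self _ _ _) _ (evP_mem_end _ _ _) h1).symm
  rw [hend] at key
  -- the value
  have hval : evD n r L 0 = 0 := by
    refine eq_zero_of_dual p hV _ fun lam => ?_
    let g : ℕ → (ℕ →₀ ℤ) → ZMod p := fun i z => lam (n i z)
    let φ : ℕ → UU →₀ ZMod p := fun i => ∑ z ∈ evP r L 0, Finsupp.single (ρ z) (g i z)
    have hφ : ∀ i, ∀ z ∈ evP r L 0, φ i (ρ z) = g i z := by
      intro i z hz
      simp only [φ, Finsupp.finsetSum_apply]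
      rw [Finset.sum_eq_single z]
      · simp
      · intro z' hz' hne
        rw [Finsupp.single_apply, if_neg]
        intro h
        exact hne (hρ _ hz' _ hz h)
      · intro h; exact absurd hz h
    have h1 := (lamp_wval φ (fun i => ρ (r i)) L (ρ 0)).1
    rw [hw', evD_comp ρ (fun i z => φ i z) r L 0, Lamp.one_fn, Finsupp.zero_apply] at h1
    rw [evD_congr _ g r L 0 (fun i z hz => hφ i z hz)] at h1
    have h2 := evD_map lam n r L 0
    exact (h2.symm.trans h1.symm)
  rw [hval] at key
  rw [ofAdd_zero, map_one, one_mul] at key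
  exact mul_eq_left.1 key

end Pool.Agent.MP_67fb03_al
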