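import Pool.Agent.MP_67fb03_al.Defs

set_option autoImplicit false

/-!
A finitely generated subgroup `G` of the unrestricted wreath product `H Wr B`, `B` an infinite
finitely generated group of exponent `m`, `H` a countable torsion group: `G` has no free
subsemigroups, and each law of `G` is a law of `H`.
-/

namespace Pool.Agent.MP_67fb03_al

open RegularWreathProduct

section sparse

variable {B : Type*} [Group B] [Infinite B]

/-- An infinite sequence in `B` all whose quotients are distinct. -/
theorem exists_sparse : ∃ x : ℕ → B, Function.Injective x ∧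
    ∀ g : B, g ≠ 1 → {b : B | (∃ i, x i = b) ∧ ∃ j, x j = g * b}.Finite := by
  classical
  let avoid : Finset B → Finset B := fun s =>
    (s ×ˢ s ×ˢ s).image (fun t => t.1 * t.2.1⁻¹ * t.2.2)
  have hpick : ∀ s : Finset B, ∃ b, b ∉ avoid s := fun s => Infinite.exists_notMem_finset _
  choose pick hpick using hpick
  let S : ℕ → Finset B := fun n => Nat.rec ∅ (fun _ s => insert (pick s) s) n
  have hS : ∀ n, S (n + 1) = insert (pick (S n)) (S n) := fun n => rfl
  let x : ℕ → B := fun n => pick (S n)
  have hmono : ∀ n m, n ≤ m → S n ⊆ S m := by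
    intro n m h
    induction m, h using Nat.le_induction with
    | base => exact subset_rfl
    | succ m _ ih => rw [hS]; exact ih.trans (Finset.subset_insert _ _)
  have hmem : ∀ n m, n < m → x n ∈ S m := by
    intro n m h
    exact hmono (n + 1) m h (by rw [hS]; exact Finset.mem_insert_self _ _)
  have hav : ∀ n a b c, a < n → b < n → c < n → x n ≠ x a * (x b)⁻¹ * x c := by
    intro n a b c ha hb hc h
    apply hpick (S n)
    change x n ∈ avoid (S n)
    rw [h]
    exact Finset.mem_image.2 ⟨(x a, x b, x c), by simp [hmem _ _ ha, hmem _ _ hb, hmem _ _ hc], rfl⟩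
  have hinj : Function.Injective x := by
    have hlt : ∀ a n, a < n → x n ≠ x a := by
      intro a n h h'
      exact hav n a a a h h h (by rw [h']; group)
    intro a b h
    rcases lt_trichotomy a b with h1 | h1 | h1
    · exact absurd h.symm (hlt _ _ h1)
    · exact h1
    · exact absurd h (hlt _ _ h1)
  refine ⟨x, hinj, fun g hg => ?_⟩
  -- solutions of `x j = g * x i` with `i < j`, resp. `j < i`, are unique
  have hu1 : ∀ i j i' j', i < j → i' < j' → x j = g * x i → x j' = g * x i' → i = i' := by
    have aux : ∀ i j i' j', i < j → i' < j' → j ≤ j' → x j = g * x i → x j' = g * x i' →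
        i = i' := by
      intro i j i' j' h1 h2 h3 h4 h5
      rcases h3.lt_or_eq with h3 | h3
      · exfalso
        apply hav j' j i i' h3 (h1.trans h3) h2
        rw [h5, h4]; group
      · subst h3
        rw [h4] at h5
        exact hinj (mul_left_cancel h5)
    intro i j i' j' h1 h2 h4 h5
    rcases le_total j j' with h | h
    · exact aux i j i' j' h1 h2 h h4 h5
    · exact (aux i' j' i j h2 h1 h h5 h4).symm
  have hu2 : ∀ i j i' j', j < i → j' < i' → x j = g * x i → x j' = g * x i' → i = i' := by
    have aux : ∀ i j i' j', j < i → j' < i' → i ≤ i' → x j = g * x i → x j' = g * x i' →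
        i = i' := by
      intro i j i' j' h1 h2 h3 h4 h5
      rcases h3.lt_or_eq with h3 | h3
      · exfalso
        apply hav i' i j j' h3 (h1.trans h3) h2
        rw [h5, h4]; group
      · exact h3
    intro i j i' j' h1 h2 h4 h5
    rcases le_total i i' with h | h
    · exact aux i j i' j' h1 h2 h h4 h5
    · exact (aux i' j' i j h2 h1 h h5 h4).symm
  have hset : {b : B | (∃ i, x i = b) ∧ ∃ j, x j = g * b} ⊆
      x '' ({i | ∃ j, i < j ∧ x j = g * x i} ∪ {i | ∃ j, j < i ∧ x j = g * x i}) := by
    rintro b ⟨⟨i, rfl⟩, ⟨j, hj⟩⟩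
    refine ⟨i, ?_, rfl⟩
    rcases lt_trichotomy i j with h | h | h
    · exact Or.inl ⟨j, h, hj⟩
    · subst h
      exact absurd (mul_eq_right.1 hj.symm) hg
    · exact Or.inr ⟨j, h, hj⟩
  refine Set.Finite.subset (Set.Finite.image _ (Set.Finite.union ?_ ?_)) hset
  · apply Set.Subsingleton.finite
    rintro i ⟨j, h1, h2⟩ i' ⟨j', h1', h2'⟩
    exact hu1 i j i' j' h1 h1' h2 h2'
  · apply Set.Subsingleton.finite
    rintro i ⟨j, h1, h2⟩ i' ⟨j', h1', h2'⟩
    exact hu2 i j i' j' h1 h1' h2 h2'

end sparse

section wreath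

variable {H B : Type*} [Group H] [Group B]

/-- commute at all but finitely many places -/
def AE (x y : B → H) : Prop := {b | x b * y b ≠ y b * x b}.Finite

omit [Group B] in
theorem AE.symm {x y : B → H} (h : AE x y) : AE y x :=
  h.subset fun _ hb => fun h' => hb h'.symm

/-- centraliser modulo finitely many places -/
def cent (y : B → H) : Subgroup (B → H) where
  carrier := {x | AE x y}
  one_mem' := by simp [AE]
  mul_mem' := by
    intro x x' h h'
    refine (h.union h').subset fun b hb => ?_
    by_contra hcon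
    simp only [Set.mem_union, Set.mem_ofPred_eq, not_or, not_not] at hcon
    apply hb
    obtain ⟨h1, h2⟩ := hcon
    simp only [Pi.mul_apply]
    rw [mul_assoc, h2, ← mul_assoc, h1, mul_assoc]
  inv_mem' := by
    intro x h
    refine h.subset fun b hb => ?_
    intro h'
    apply hb
    simp only [Pi.inv_apply]
    rw [inv_mul_eq_iff_eq_mul, ← mul_assoc, h', mul_assoc, mul_inv_cancel, mul_one]

omit [Group B] in
theorem AE_closure {T : Set (B → H)} (hT : ∀ x ∈ T, ∀ y ∈ T, AE x y) :
    ∀ x ∈ Subgroup.closure T, ∀ y ∈ Subgroup.closure T, AE x y := by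
  have h1 : ∀ y ∈ T, ∀ x ∈ Subgroup.closure T, AE x y := by
    intro y hy x hx
    have : Subgroup.closure T ≤ cent y := (Subgroup.closure_le _).2 fun x hx => hT x hx y hy
    exact this hx
  intro x hx y hy
  have : Subgroup.closure T ≤ cent x := (Subgroup.closure_le _).2 fun y hy => (h1 y hy x hx).symm
  exact (this hy).symm

/-- translate of a function -/
def trl (g : B) (f : B → H) : B → H := fun b => f (g⁻¹ * b)

variable (f : B → H)

/-- the group of products of translates -/
def TT : Subgroup (B → H) := Subgroup.closure (Set.range fun g => trl g f)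

theorem trl_mem (g : B) (x : B → H) (hx : x ∈ TT f) : trl g x ∈ TT f := by
  let φ : (B → H) →* (B → H) :=
    { toFun := trl g
      map_one' := rfl
      map_mul' := fun _ _ => rfl }
  have h1 : TT f ≤ (TT f).comap φ := by
    refine (Subgroup.closure_le _).2 ?_
    rintro _ ⟨k, rfl⟩
    refine Subgroup.subset_closure ⟨g * k, ?_⟩
    funext b
    change f ((g * k)⁻¹ * b) = f (k⁻¹ * (g⁻¹ * b))
    rw [mul_inv_rev, mul_assoc]
  exact h1 hx

/-- elements of the wreath product with base part in `TT f` -/
def bigG : Subgroup (RegularWreathProduct H B) where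
  carrier := {γ | γ.left ∈ TT f}
  one_mem' := (TT f).one_mem
  mul_mem' := by
    intro a b ha hb
    change a.left * (fun x => b.left (a.right⁻¹ * x)) ∈ TT f
    exact (TT f).mul_mem ha (trl_mem f _ _ hb)
  inv_mem' := by
    intro a ha
    change (fun x => a.left⁻¹ (a.right * x)) ∈ TT f
    have := trl_mem f a.right⁻¹ _ ((TT f).inv_mem ha)
    convert this using 1
    funext x
    simp [trl]

/-- the generators -/
def gens (S : Set B) : Set (RegularWreathProduct H B) :=
  insert ⟨f, 1⟩ ((fun g : B => (⟨1, g⟩ : RegularWreathProduct H B)) '' S)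

/-- the group -/
def GG (S : Set B) : Subgroup (RegularWreathProduct H B) := Subgroup.closure (gens f S)

theorem GG_le (S : Set B) : GG f S ≤ bigG f := by
  refine (Subgroup.closure_le _).2 ?_
  rintro _ (rfl | ⟨g, _, rfl⟩)
  · refine Subgroup.subset_closure ⟨1, ?_⟩
    funext b
    simp [trl]
  · exact (TT f).one_mem

theorem top_mem (S : Set B) (hS : Subgroup.closure S = ⊤) (g : B) :
    (⟨1, g⟩ : RegularWreathProduct H B) ∈ GG f S := by
  have h1 : Subgroup.closure S ≤ (GG f S).comap (inl : B →* RegularWreathProduct H B) := by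
    refine (Subgroup.closure_le _).2 fun s hs => ?_
    exact Subgroup.subset_closure (Or.inr ⟨s, hs, rfl⟩)
  have h2 : g ∈ Subgroup.closure S := by rw [hS]; trivial
  exact h1 h2

theorem base_mem (S : Set B) (hS : Subgroup.closure S = ⊤) (x : B → H) (hx : x ∈ TT f) :
    (⟨x, 1⟩ : RegularWreathProduct H B) ∈ GG f S := by
  let φ : (B → H) →* RegularWreathProduct H B :=
    { toFun := fun x => ⟨x, 1⟩
      map_one' := rfl
      map_mul' := fun x y => by
        ext
        · simp
        · simp }
  have h1 : TT f ≤ (GG f S).comap φ := by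
    refine (Subgroup.closure_le _).2 ?_
    rintro _ ⟨g, rfl⟩
    change (⟨trl g f, 1⟩ : RegularWreathProduct H B) ∈ GG f S
    have e : (⟨trl g f, 1⟩ : RegularWreathProduct H B) = ⟨1, g⟩ * ⟨f, 1⟩ * ⟨1, g⟩⁻¹ := by
      ext b
      · simp [trl]
      · simp
    rw [e]
    exact (GG f S).mul_mem ((GG f S).mul_mem (top_mem f S hS g)
      (Subgroup.subset_closure (Or.inl rfl))) ((GG f S).inv_mem (top_mem f S hS g))
  exact h1 hx

theorem pow_right' (a : RegularWreathProduct H B) (k : ℕ) : (a ^ k).right = a.right ^ k :=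
  map_pow (rightHom : RegularWreathProduct H B →* B) a k

theorem pow_left_of_right_one (a : RegularWreathProduct H B) (h : a.right = 1) (k : ℕ) (b : B) :
    (a ^ k).left b = (a.left b) ^ k := by
  induction k with
  | zero => simp
  | succ k ih =>
    rw [pow_succ, mul_left, pow_succ, ← ih]
    simp [pow_right', h]

/-- no free subsemigroups -/
theorem key_relation {m : ℕ} (hm : ∀ b : B, b ^ m = 1)
    (hH : ∀ h : H, ∃ k : ℕ, 0 < k ∧ h ^ k = 1)
    (hT : ∀ x ∈ TT f, ∀ y ∈ TT f, AE x y) (S : Set B) (a c : RegularWreathProduct H B)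
    (ha : a ∈ GG f S) (hc : c ∈ GG f S) :
    ∃ N : ℕ, 0 < N ∧ a ^ (m * N) * c ^ m = c ^ m * a ^ (m * N) := by
  classical
  have hx : (a ^ m).left ∈ TT f := (bigG f).pow_mem (GG_le f S ha) m
  have hy : (c ^ m).left ∈ TT f := (bigG f).pow_mem (GG_le f S hc) m
  have hx1 : (a ^ m).right = 1 := by rw [pow_right', hm]
  have hy1 : (c ^ m).right = 1 := by rw [pow_right', hm]
  have hfin := hT _ hx _ hy
  choose k hk hk' using hH
  refine ⟨∏ b ∈ hfin.toFinset, k ((a ^ m).left b), Finset.prod_pos fun _ _ => hk _, ?_⟩
  set N := ∏ b ∈ hfin.toFinset, k ((a ^ m).left b) with hN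
  rw [pow_mul]
  have hxN : ((a ^ m) ^ N).right = 1 := by rw [pow_right', hx1, one_pow]
  ext b
  · rw [mul_left, mul_left, Pi.mul_apply, Pi.mul_apply, hxN, hy1]
    simp only [inv_one, one_mul]
    rw [pow_left_of_right_one _ hx1]
    by_cases hb : b ∈ hfin.toFinset
    · have h1 : k ((a ^ m).left b) ∣ N := Finset.dvd_prod_of_mem _ hb
      obtain ⟨t, ht⟩ := h1
      rw [ht, pow_mul, hk', one_pow, one_mul, mul_one]
    · have h1 : (a ^ m).left b * (c ^ m).left b = (c ^ m).left b * (a ^ m).left b := by
        by_contra hcon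
        exact hb (hfin.mem_toFinset.2 hcon)
      exact (Commute.pow_left h1 N)
  · rw [mul_right, mul_right, hxN, hy1]

/-- positive words -/
theorem noFree_of_relation {G : Type*} [Group G] (h : ∀ a c : G, ∃ k l : ℕ, 0 < k ∧ 0 < l ∧
    a ^ k * c ^ l = c ^ l * a ^ k) : NoFreeSubsemigroup G := by
  intro a c
  obtain ⟨k, l, hk, hl, hrel⟩ := h a c
  obtain ⟨k, rfl⟩ := Nat.exists_eq_succ_of_ne_zero hk.ne'
  obtain ⟨l, rfl⟩ := Nat.exists_eq_succ_of_ne_zero hl.ne'
  have hval : ∀ (t : Bool) (L : List Bool),
      FreeSemigroup.lift (fun t => if t then a else c) (⟨t, L⟩ : FreeSemigroup Bool) =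
        (if t then a else c) * (L.map fun t => if t then a else c).prod := by
    intro t L
    rw [FreeSemigroup.lift_mk_eq_foldl]
    generalize (if t then a else c) = z
    induction L generalizing z with
    | nil => simp
    | cons x L ih => simp only [List.foldl_cons, List.map_cons, List.prod_cons]; rw [ih, mul_assoc]
  refine ⟨⟨true, List.replicate k true ++ List.replicate (l + 1) false⟩,
    ⟨false, List.replicate l false ++ List.replicate (k + 1) true⟩, ?_, ?_⟩
  · intro h
    have := congrArg FreeSemigroup.head h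
    simp at this
  · rw [hval, hval]
    simp only [List.map_append, List.map_replicate, List.prod_append, List.prod_replicate, if_true,
      Bool.false_eq_true, if_false]
    rw [← mul_assoc, ← mul_assoc, ← pow_succ', ← pow_succ']
    exact hrel

theorem laws_pass (S : Set B) (hS : Subgroup.closure S = ⊤) (hf : Function.Surjective f)
    (w : FreeGroup ℕ) (hw : IsLaw w (GG f S)) : IsLaw w H := by
  intro h
  -- evaluation at `1`
  choose b hb using fun i => hf (h i)
  have hmem : ∀ i, trl (b i)⁻¹ f ∈ TT f := fun i => Subgroup.subset_closure ⟨_, rfl⟩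
  have h1 := hw fun i => ⟨⟨trl (b i)⁻¹ f, 1⟩, base_mem f S hS _ (hmem i)⟩
  -- the hom from functions
  let φ : (B → H) →* RegularWreathProduct H B :=
    { toFun := fun x => ⟨x, 1⟩
      map_one' := rfl
      map_mul' := fun x y => by
        ext
        · simp
        · simp }
  have h2 : (FreeGroup.lift fun i => φ (trl (b i)⁻¹ f)) w = 1 := by
    have h3 : (GG f S).subtype.comp (FreeGroup.lift fun i =>
        (⟨⟨trl (b i)⁻¹ f, 1⟩, base_mem f S hS _ (hmem i)⟩ : GG f S)) =
        FreeGroup.lift fun i => φ (trl (b i)⁻¹ f) := by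
      ext i
      · simp [φ]
      · simp [φ]
    rw [← h3, MonoidHom.comp_apply, h1, map_one]
  have h4 : φ ((FreeGroup.lift fun i => trl (b i)⁻¹ f) w) = 1 := by
    have h5 : φ.comp (FreeGroup.lift fun i => trl (b i)⁻¹ f) =
        FreeGroup.lift fun i => φ (trl (b i)⁻¹ f) := by
      apply FreeGroup.ext_hom
      intro i
      simp
    rw [← MonoidHom.comp_apply, h5, h2]
  have h6 : (FreeGroup.lift fun i => trl (b i)⁻¹ f) w = 1 := congrArg RegularWreathProduct.left h4
  have h7 : (Pi.evalMonoidHom (fun _ : B => H) 1).comp (FreeGroup.lift fun i => trl (b i)⁻¹ f) =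
      FreeGroup.lift h := by
    apply FreeGroup.ext_hom
    intro i
    simp [trl, hb]
  rw [← h7, MonoidHom.comp_apply, h6, map_one]

end wreath

end Pool.Agent.MP_67fb03_al
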