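import Pool.Agent.MP_67fb03_al.App1
import Pool.Agent.MP_67fb03_al.App2

set_option autoImplicit false

namespace Pool.Agent.MP_67fb03_al

/-- upper unipotent matrices -/
def upU (n : ℤ) : Matrix (Fin 2) (Fin 2) ℤ := !![1, n; 0, 1]
/-- lower unipotent matrices -/
def loL (n : ℤ) : Matrix (Fin 2) (Fin 2) ℤ := !![1, 0; n, 1]

theorem upU_mul (a b : ℤ) : upU a * upU b = upU (a + b) := by
  ext i j; fin_cases i <;> fin_cases j <;> simp [upU, Matrix.mul_apply, Fin.sum_univ_two, add_comm]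

theorem loL_mul (a b : ℤ) : loL a * loL b = loL (a + b) := by
  ext i j; fin_cases i <;> fin_cases j <;> simp [loL, Matrix.mul_apply, Fin.sum_univ_two, add_comm]

theorem upU_zero : upU 0 = 1 := by
  ext i j; fin_cases i <;> fin_cases j <;> simp [upU]

theorem loL_zero : loL 0 = 1 := by
  ext i j; fin_cases i <;> fin_cases j <;> simp [loL]

/-- units -/
def uU (n : ℤ) : (Matrix (Fin 2) (Fin 2) ℤ)ˣ :=
  ⟨upU n, upU (-n), by rw [upU_mul, add_neg_cancel, upU_zero],
    by rw [upU_mul, neg_add_cancel, upU_zero]⟩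
def uL (n : ℤ) : (Matrix (Fin 2) (Fin 2) ℤ)ˣ :=
  ⟨loL n, loL (-n), by rw [loL_mul, add_neg_cancel, loL_zero],
    by rw [loL_mul, neg_add_cancel, loL_zero]⟩

theorem uU_pow (k : ℕ) : (uU 1) ^ k = uU k := by
  induction k with
  | zero => ext1; simp [uU, upU_zero]
  | succ k ih =>
    rw [pow_succ, ih]; ext1
    simp only [uU, Units.val_mul, upU_mul]; push_cast; rfl

theorem uL_pow (k : ℕ) : (uL 1) ^ k = uL k := by
  induction k with
  | zero => ext1; simp [uL, loL_zero]
  | succ k ih =>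
    rw [pow_succ, ih]; ext1
    simp only [uL, Units.val_mul, loL_mul]; push_cast; rfl

/-- the commutator as a word -/
def cmt {G : Type*} [Group G] (a b : G) : G := a * b * a⁻¹ * b⁻¹

theorem map_cmt {G K : Type*} [Group G] [Group K] (φ : G →* K) (a b : G) :
    φ (cmt a b) = cmt (φ a) (φ b) := by simp [cmt]

/-- the law -/
def law (m : ℕ) : FreeGroup ℕ :=
  cmt (cmt ((FreeGroup.of 0) ^ m) ((FreeGroup.of 1) ^ m))
    (cmt ((FreeGroup.of 0) ^ m) ((FreeGroup.of 1) ^ (2 * m)))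

theorem law_ne_one (m : ℕ) (hm : 0 < m) : law m ≠ 1 := by
  intro h
  let φ : FreeGroup ℕ →* (Matrix (Fin 2) (Fin 2) ℤ)ˣ :=
    FreeGroup.lift fun i => if i = 0 then uU 1 else uL 1
  have h1 := congrArg φ h
  rw [map_one] at h1
  have h0 : φ (FreeGroup.of 0) = uU 1 := by simp [φ]
  have h2 : φ (FreeGroup.of 1) = uL 1 := by simp [φ]
  simp only [law, map_cmt, map_pow, h0, h2, uU_pow, uL_pow] at h1
  -- the two commutators commute
  have h3 : cmt (uU (m : ℤ)) (uL (m : ℤ)) * cmt (uU (m : ℤ)) (uL ((2 * m : ℕ) : ℤ)) =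
      cmt (uU (m : ℤ)) (uL ((2 * m : ℕ) : ℤ)) * cmt (uU (m : ℤ)) (uL (m : ℤ)) := by
    have h4 := h1
    rw [cmt, mul_inv_eq_one, mul_inv_eq_iff_eq_mul] at h4
    exact h4
  have h5 := congrArg (fun M : (Matrix (Fin 2) (Fin 2) ℤ)ˣ => (M : Matrix (Fin 2) (Fin 2) ℤ) 0 1) h3
  simp only [cmt, uU, uL, Units.val_mul, Units.inv_mk, upU, loL] at h5
  simp [Matrix.mul_apply, Fin.sum_univ_two] at h5
  have hm' : (0 : ℤ) < m := by exact_mod_cast hm
  have h6' : 2 * (m : ℤ) ^ 7 = 0 := by linear_combination h5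
  have h6 : (m : ℤ) ^ 7 = 0 := by linarith
  have : (m : ℤ) ≠ 0 := hm'.ne'
  exact this (pow_eq_zero_iff (by norm_num) |>.1 h6)

/-! ## The group satisfies the law -/

section

variable {H B : Type*} [Group H] [Group B]

/-- commutators of elements of the base group have values in the commutators -/
theorem cmt_left (a c : RegularWreathProduct H B) (ha : a.right = 1) (hc : c.right = 1) :
    (cmt a c).right = 1 ∧ ∀ b, (cmt a c).left b = cmt (a.left b) (c.left b) := by
  constructor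
  · simp [cmt, ha, hc]
  · intro b
    simp [cmt, ha, hc]

theorem law_holds {m : ℕ} (hm : ∀ b : B, b ^ m = 1)
    (hmet : ∀ x y z t : H, cmt (cmt x y) (cmt z t) = 1) (a c : RegularWreathProduct H B) :
    cmt (cmt (a ^ m) (c ^ m)) (cmt (a ^ m) (c ^ (2 * m))) = 1 := by
  have ha : (a ^ m).right = 1 := by rw [pow_right', hm]
  have hc : (c ^ m).right = 1 := by rw [pow_right', hm]
  have hc2 : (c ^ (2 * m)).right = 1 := by rw [mul_comm, pow_mul, pow_right', hc, one_pow]
  obtain ⟨h1, h2⟩ := cmt_left _ _ ha hc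
  obtain ⟨h3, h4⟩ := cmt_left _ _ ha hc2
  obtain ⟨h5, h6⟩ := cmt_left _ _ h1 h3
  ext b
  · rw [h6, h2, h4, hmet]; rfl
  · rw [h5]; rfl

end

theorem lamp_metabelian {p : ℕ} {U : Type*} [AddCommGroup U] (x y z t : Lamp p U) :
    cmt (cmt x y) (cmt z t) = 1 := by
  have h := Lamp.comm_of_pt_zero (cmt x y) (cmt z t) (Lamp.pt_commutator x y)
    (Lamp.pt_commutator z t)
  rw [cmt, mul_inv_eq_one, mul_inv_eq_iff_eq_mul]
  exact h

/-! ## Task Z (application) -/
theorem application (h : ∃ (m : ℕ) (_ : 0 < m) (B : Type) (_ : Group B), Group.FG B ∧ Infinite B ∧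
    ∀ b : B, b ^ m = 1) (p : ℕ) (hp : p.Prime) :
    ∃ (G : Type) (_ : Group G), Group.FG G ∧ NoFreeSubsemigroup G ∧
      (∃ w : FreeGroup ℕ, w ≠ 1 ∧ IsLaw w G) ∧
      ∀ (A : Type*) [Group A], InApA p A → InVar G A := by
  classical
  obtain ⟨m, hm0, B, iB, hfg, hinf, hm⟩ := h
  have : Fact p.Prime := ⟨hp⟩
  -- the base group
  have hcount : Countable (AddCircle (1 : ℚ)) := by
    exact Function.Surjective.countable (QuotientAddGroup.mk_surjective
      (s := AddSubgroup.zmultiples (1 : ℚ)))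
  have hcU : Countable UU := inferInstance
  have hcH : Countable (Lamp p UU) := inferInstance
  obtain ⟨hseq, hseqs⟩ := exists_surjective_nat (Lamp p UU)
  obtain ⟨x, hxinj, hx⟩ := exists_sparse (B := B)
  let f : B → Lamp p UU := Function.extend x hseq 1
  have hfx : ∀ i, f (x i) = hseq i := fun i => hxinj.extend_apply _ _ i
  have hfn : ∀ b, f b ≠ 1 → ∃ i, x i = b := by
    intro b hb
    by_contra hcon
    apply hb
    exact Function.extend_apply' _ _ _ hcon
  have hfs : Function.Surjective f := by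
    intro y
    obtain ⟨i, hi⟩ := hseqs y
    exact ⟨x i, by rw [hfx, hi]⟩
  -- generators of `B`
  obtain ⟨S, hS, hSfin⟩ := (Group.fg_iff).1 hfg
  have hT : ∀ y ∈ TT f, ∀ z ∈ TT f, AE y z := by
    apply AE_closure
    rintro _ ⟨g, rfl⟩ _ ⟨k, rfl⟩
    by_cases hgk : g = k
    · subst hgk
      simp [AE]
    · have h1 : g * k⁻¹ ≠ 1 := by
        intro h2
        exact hgk (mul_inv_eq_one.1 h2)
      have h2 : k⁻¹ * g ≠ 1 := by
        intro h2
        apply hgk
        rw [inv_mul_eq_one] at h2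
        exact h2.symm
      have hfin := (hx _ h2)
      have hfin2 := hfin.image (fun b => g * b)
      refine hfin2.subset ?_
      intro b hb
      have hb1 : f (g⁻¹ * b) ≠ 1 := by
        intro h3
        apply hb
        change f (g⁻¹ * b) * f (k⁻¹ * b) = f (k⁻¹ * b) * f (g⁻¹ * b)
        rw [h3, one_mul, mul_one]
      have hb2 : f (k⁻¹ * b) ≠ 1 := by
        intro h3
        apply hb
        change f (g⁻¹ * b) * f (k⁻¹ * b) = f (k⁻¹ * b) * f (g⁻¹ * b)
        rw [h3, one_mul, mul_one]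
      refine ⟨g⁻¹ * b, ⟨hfn _ hb1, ?_⟩, by simp⟩
      obtain ⟨j, hj⟩ := hfn _ hb2
      exact ⟨j, by rw [hj]; group⟩
  have hHt : ∀ y : Lamp p UU, ∃ k : ℕ, 0 < k ∧ y ^ k = 1 :=
    Lamp.exists_pow_eq_one hp.pos torsion_UU
  refine ⟨GG f S, inferInstance, ?_, ?_, ⟨law m, law_ne_one m hm0, ?_⟩, ?_⟩
  · -- finitely generated
    rw [Group.fg_iff_subgroup_fg, Subgroup.fg_iff]
    exact ⟨gens f S, rfl, (hSfin.image _).insert _⟩
  · apply noFree_of_relation
    intro a c
    obtain ⟨N, hN, hrel⟩ := key_relation f hm hHt hT S a c a.2 c.2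
    refine ⟨m * N, m, Nat.mul_pos hm0 hN, hm0, ?_⟩
    apply Subtype.ext
    exact hrel
  · intro g
    rw [law, map_cmt, map_cmt, map_cmt, map_pow, map_pow, map_pow, FreeGroup.lift_apply_of,
      FreeGroup.lift_apply_of]
    apply Subtype.ext
    have := law_holds hm (lamp_metabelian (p := p) (U := UU)) (g 0 : RegularWreathProduct (Lamp p UU) B)
      (g 1)
    exact this
  · intro A _ hA w hw
    exact law_transfer p w (laws_pass f S hS hfs w hw) A hA

end Pool.Agent.MP_67fb03_al
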