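import Mathlib

/-!
Definitions for MP_67fb03_al: free subsemigroups, laws, the class `𝔄_p 𝔄`.
-/

namespace Pool.Agent.MP_67fb03_al

/-- `G` has no free subsemigroup of rank two: any two elements satisfy a relation between two
distinct positive words. -/
def NoFreeSubsemigroup (G : Type*) [Group G] : Prop :=
  ∀ a b : G, ∃ u v : FreeSemigroup Bool, u ≠ v ∧
    FreeSemigroup.lift (fun t => if t then a else b) u =
      FreeSemigroup.lift (fun t => if t then a else b) v

/-- The word `w` is a law of `G`. -/
def IsLaw (w : FreeGroup ℕ) (G : Type*) [Group G] : Prop := ∀ f : ℕ → G, FreeGroup.lift f w = 1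

/-- The group `A` is an extension of an abelian group of exponent `p` by an abelian group. -/
def InApA (p : ℕ) (A : Type*) [Group A] : Prop :=
  ∃ N : Subgroup A, N.Normal ∧ (∀ x ∈ N, x ^ p = 1) ∧ (∀ x ∈ N, ∀ y ∈ N, x * y = y * x) ∧
    (∀ x y : A, x * y * x⁻¹ * y⁻¹ ∈ N)

/-- `A` belongs to the variety generated by `G`. -/
def InVar (G : Type*) [Group G] (A : Type*) [Group A] : Prop :=
  ∀ w : FreeGroup ℕ, IsLaw w G → IsLaw w A

end Pool.Agent.MP_67fb03_al
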